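import Pool.Agent.W964.LieExp.Main

/-!
# Sharp lower bounds for Lie exponents
-/

set_option autoImplicit false

open scoped Manifold ContDiff
open Module Set Filter Topology Metric

namespace Pool.Agent.Y576.LE

open Pool.Agent.W964.LieExp

/-- Invariance of domain between real vector spaces of the same finite dimension. -/
theorem image_mem_nhds_of_injOn {V W : Type*} [NormedAddCommGroup V] [NormedSpace ℝ V]
    [FiniteDimensional ℝ V] [NormedAddCommGroup W] [NormedSpace ℝ W] [FiniteDimensional ℝ W]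
    (hdim : finrank ℝ V = finrank ℝ W)
    (U : Set V) (hU : IsOpen U) (x0 : V) (hx0 : x0 ∈ U) (f : V → W) (hc : ContinuousOn f U)
    (hi : InjOn f U) : f '' U ∈ 𝓝 (f x0) := by
  set n := finrank ℝ V with hn
  let E := EuclideanSpace ℝ (Fin n)
  have hE : finrank ℝ E = n := by simp [E]
  let L : V ≃L[ℝ] E := ContinuousLinearEquiv.ofFinrankEq (by rw [hE])
  let M : W ≃L[ℝ] E := ContinuousLinearEquiv.ofFinrankEq (by rw [hE]; exact hdim.symm)
  have hopen : IsOpen (L.symm ⁻¹' U) := hU.preimage L.symm.continuous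
  have hmem : L x0 ∈ L.symm ⁻¹' U := by simpa using hx0
  obtain ⟨r, hr, hball⟩ := Metric.nhds_basis_closedBall.mem_iff.1 (hopen.mem_nhds hmem)
  have hg := Helper514.IoD.image_mem_nhds (E := E) (fun y => M (f (L.symm y))) (L x0) r hr
    (by
      apply M.continuous.comp_continuousOn
      apply hc.comp L.symm.continuous.continuousOn
      intro y hy
      exact hball hy)
    (by
      intro a ha b hb hab
      exact L.symm.injective (hi (hball ha) (hball hb) (M.injective hab)))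
  have h0 : M (f (L.symm (L x0))) = M (f x0) := by simp
  simp only [h0] at hg
  have h1 := M.continuous.continuousAt.preimage_mem_nhds hg
  refine Filter.mem_of_superset h1 ?_
  rintro w ⟨y, hy, hyw⟩
  exact ⟨L.symm y, hball hy, M.injective hyw⟩

/-- If `S, T, U` satisfy the triple product property and `U` has positive dimension then
`dim S + dim T < dim G`. -/
theorem dim_add_lt (A : RealLieGroup) {S T U : Set A.G} {m₁ m₂ m₃ : ℕ}
    (hS : IsSubmanifold A.E m₁ S) (hT : IsSubmanifold A.E m₂ T) (hU : IsSubmanifold A.E m₃ U)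
    (h : TripleProductProperty S T U) (hm₃ : 1 ≤ m₃) : m₁ + m₂ + 1 ≤ finrank ℝ A.E := by
  have hle := dim_add_le A hS hT hU.1 h
  by_contra hlt
  have heq : m₁ + m₂ = finrank ℝ A.E := by omega
  have hUne := hU.1
  obtain ⟨⟨x, hx⟩, hS⟩ := hS
  obtain ⟨⟨y, hy⟩, hT⟩ := hT
  obtain ⟨⟨z, hz⟩, hU⟩ := hU
  obtain ⟨e, -, hxe, W, hW, heW⟩ := hS x hx
  obtain ⟨e', -, hye, W', hW', heW'⟩ := hT y hy
  obtain ⟨e'', -, hze, W'', hW'', heW''⟩ := hU z hz
  have : IsTopologicalGroup A.G := topologicalGroup_of_lieGroup 𝓘(ℝ, A.E) ∞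
  let c := chartAt A.E (x⁻¹ * y)
  let P : W × W' → A.E × A.E := fun p => (e x + p.1, e' y + p.2)
  have hP : Continuous P := by
    apply Continuous.prodMk
    · exact continuous_const.add (continuous_subtype_val.comp continuous_fst)
    · exact continuous_const.add (continuous_subtype_val.comp continuous_snd)
  let V : Set (W × W') := P ⁻¹' (e.target ×ˢ e'.target)
  have hV : IsOpen V := (e.open_target.prod e'.open_target).preimage hP
  let F : W × W' → A.G := fun p => (e.symm (e x + p.1))⁻¹ * e'.symm (e' y + p.2)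
  have hF : ContinuousOn F V := by
    apply ContinuousOn.mul
    · apply ContinuousOn.inv
      apply e.continuousOn_symm.comp (hP.fst.continuousOn)
      intro p hp
      exact hp.1
    · apply e'.continuousOn_symm.comp (hP.snd.continuousOn)
      intro p hp
      exact hp.2
  let O : Set (W × W') := V ∩ F ⁻¹' c.source
  have hO : IsOpen O := hF.isOpen_inter_preimage hV c.open_source
  have hF0 : F 0 = x⁻¹ * y := by
    simp only [F, Prod.fst_zero, Prod.snd_zero, ZeroMemClass.coe_zero, add_zero,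
        e.left_inv hxe, e'.left_inv hye]
  have h0 : (0 : W × W') ∈ O := by
    refine ⟨⟨?_, ?_⟩, ?_⟩
    · simpa [P] using e.map_source hxe
    · simpa [P] using e'.map_source hye
    · change F 0 ∈ c.source
      rw [hF0]
      exact mem_chart_source _ _
  have hmemS : ∀ p ∈ V, e.symm (e x + p.1) ∈ S := by
    intro p hp
    have hp1 : e x + p.1 ∈ e.target := hp.1
    rw [heW _ (e.map_target hp1), e.right_inv hp1]
    simp
  have hmemT : ∀ p ∈ V, e'.symm (e' y + p.2) ∈ T := by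
    intro p hp
    have hp1 : e' y + p.2 ∈ e'.target := hp.2
    rw [heW' _ (e'.map_target hp1), e'.right_inv hp1]
    simp
  have hinj : InjOn F V := by
    intro p hp q hq hpq
    obtain ⟨h1, h2⟩ := h.inj hUne (hmemS p hp) (hmemS q hq) (hmemT p hp) (hmemT q hq) hpq
    have h3 := e.symm.injOn hp.1 hq.1 h1
    have h4 := e'.symm.injOn hp.2 hq.2 h2
    have h5 : (p.1 : A.E) = q.1 := add_left_cancel h3
    have h6 : (p.2 : A.E) = q.2 := add_left_cancel h4
    exact Prod.ext (Subtype.ext h5) (Subtype.ext h6)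
  have hc : ContinuousOn (fun p => c (F p)) O :=
    c.continuousOn.comp (hF.mono inter_subset_left) (fun p hp => hp.2)
  have hi : InjOn (fun p => c (F p)) O := by
    intro p hp q hq hpq
    exact hinj hp.1 hq.1 (c.injOn hp.2 hq.2 hpq)
  have himg := image_mem_nhds_of_injOn (by rw [finrank_prod, hW, hW', heq]) O hO 0 h0 _ hc hi
  -- the image of `F` is a neighbourhood of `x⁻¹ y`
  have hN : F '' O ∈ 𝓝 (x⁻¹ * y) := by
    have hsrc : x⁻¹ * y ∈ c.source := mem_chart_source _ _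
    have h1 : c ⁻¹' ((fun p => c (F p)) '' O) ∈ 𝓝 (x⁻¹ * y) := by
      apply (c.continuousAt hsrc).preimage_mem_nhds
      have h2 : c (F 0) = c (x⁻¹ * y) := by rw [hF0]
      rw [← h2]
      exact himg
    have h3 : c.source ∈ 𝓝 (x⁻¹ * y) := c.open_source.mem_nhds hsrc
    filter_upwards [h1, h3] with g hg1 hg2
    obtain ⟨p, hp, hpg⟩ := hg1
    exact ⟨p, hp, c.injOn hp.2 hg2 hpg⟩
  -- a point of `U` close to `z` and different from `z`
  obtain ⟨w, hw⟩ : ∃ w : W'', w ≠ 0 := by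
    have : Nontrivial W'' := Module.nontrivial_of_finrank_pos (R := ℝ) (by rw [hW'']; omega)
    exact exists_ne 0
  have hw0 : (w : A.E) ≠ 0 := fun hh => hw (Subtype.ext hh)
  let γ : ℝ → A.E := fun τ => e'' z + τ • (w : A.E)
  have hγ : Continuous γ := by fun_prop
  have hγ0 : γ 0 = e'' z := by simp [γ]
  have htend : Tendsto (fun τ => x⁻¹ * (z * (e''.symm (γ τ))⁻¹) * y) (𝓝 0) (𝓝 (x⁻¹ * y)) := by
    have h1 : ContinuousAt (fun τ => e''.symm (γ τ)) 0 := by
      apply ContinuousAt.comp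
      · rw [hγ0]
        exact e''.continuousAt_symm (e''.map_source hze)
      · exact hγ.continuousAt
    have h2 : ContinuousAt (fun τ => x⁻¹ * (z * (e''.symm (γ τ))⁻¹) * y) 0 :=
      (continuousAt_const.mul (continuousAt_const.mul h1.inv)).mul continuousAt_const
    have h3 : x⁻¹ * (z * (e''.symm (γ 0))⁻¹) * y = x⁻¹ * y := by
      rw [hγ0, e''.left_inv hze, mul_inv_cancel, mul_one]
    have h4 := h2.tendsto
    rwa [h3] at h4
  have hev1 : ∀ᶠ τ in 𝓝[≠] (0 : ℝ), x⁻¹ * (z * (e''.symm (γ τ))⁻¹) * y ∈ F '' O :=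
    nhdsWithin_le_nhds (htend hN)
  have hev2 : ∀ᶠ τ in 𝓝[≠] (0 : ℝ), γ τ ∈ e''.target := by
    apply nhdsWithin_le_nhds
    apply hγ.continuousAt.preimage_mem_nhds
    rw [hγ0]
    exact e''.open_target.mem_nhds (e''.map_source hze)
  obtain ⟨τ, h1, h2, h3⟩ := (hev1.and (hev2.and self_mem_nhdsWithin)).exists
  obtain ⟨p, hp, hpF⟩ := h1
  set u := e''.symm (γ τ) with hu
  have huU : u ∈ U := by
    rw [heW'' _ (e''.map_target h2), e''.right_inv h2]
    simp only [γ, add_sub_cancel_left]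
    exact W''.smul_mem _ w.2
  have hs := hmemS p hp.1
  have ht := hmemT p hp.1
  have key := h (x * (e.symm (e x + p.1))⁻¹) ⟨x, hx, _, hs, rfl⟩
    (e'.symm (e' y + p.2) * y⁻¹) ⟨_, ht, y, hy, rfl⟩ (u * z⁻¹) ⟨u, huU, z, hz, rfl⟩ (by
      have e1 : x * (e.symm (e x + p.1))⁻¹ * (e'.symm (e' y + p.2) * y⁻¹) * (u * z⁻¹) =
          x * F p * y⁻¹ * (u * z⁻¹) := by simp only [F]; group
      rw [e1, hpF]
      group)
  have huz : u = z := mul_inv_eq_one.1 key.2.2
  have h4 : γ τ = e'' z := by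
    have h5 : e'' u = γ τ := by rw [hu, e''.right_inv h2]
    rw [← h5, huz]
  have h6 : τ • (w : A.E) = 0 := by
    have : e'' z + τ • (w : A.E) = e'' z := h4
    simpa using this
  rcases smul_eq_zero.1 h6 with h7 | h7
  · exact h3 h7
  · exact hw0 h7

/-- The rank is at most the dimension. -/
theorem rank_le (A : RealLieGroup) : rank A.E A.G ≤ finrank ℝ A.E := by
  unfold rank
  set s := {k : ℕ | ∃ H : LieSubalgebra ℝ (GroupLieAlgebra 𝓘(ℝ, A.E) A.G),
    H.IsCartanSubalgebra ∧ finrank ℝ H = k} with hs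
  rcases s.eq_empty_or_nonempty with he | hne
  · rw [he, Nat.sInf_empty]
    exact Nat.zero_le _
  · obtain ⟨H, -, hH⟩ := Nat.sInf_mem hne
    rw [← hH]
    have : FiniteDimensional ℝ (GroupLieAlgebra 𝓘(ℝ, A.E) A.G) :=
      inferInstanceAs (FiniteDimensional ℝ A.E)
    have h1 : finrank ℝ H ≤ finrank ℝ (GroupLieAlgebra 𝓘(ℝ, A.E) A.G) :=
      Submodule.finrank_le H.toSubmodule
    exact h1

/-- The two cases of the dimension bound. -/
theorem dims (A : RealLieGroup) {S T U : Set A.G} {m₁ m₂ m₃ : ℕ}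
    (hS : IsSubmanifold A.E m₁ S) (hT : IsSubmanifold A.E m₂ T) (hU : IsSubmanifold A.E m₃ U)
    (h : TripleProductProperty S T U) :
    m₁ + m₂ + m₃ ≤ finrank ℝ A.E ∨ 2 * (m₁ + m₂ + m₃) + 3 ≤ 3 * finrank ℝ A.E := by
  have h1 := dim_add_le A hS hT hU.1 h
  have h2 := dim_add_le A hT hU hS.1 h.rotate
  have h3 := dim_add_le A hU hS hT.1 h.rotate.rotate
  have g1 := dim_add_lt A hS hT hU h
  have g2 := dim_add_lt A hT hU hS h.rotate
  have g3 := dim_add_lt A hU hS hT h.rotate.rotate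
  rcases Nat.eq_zero_or_pos m₁ with e1 | e1
  · left; omega
  rcases Nat.eq_zero_or_pos m₂ with e2 | e2
  · left; omega
  rcases Nat.eq_zero_or_pos m₃ with e3 | e3
  · left; omega
  right
  have := g1 e3
  have := g2 e1
  have := g3 e2
  omega

/-- The bound for the value of a triple. -/
theorem value_ge {d r m : ℕ} (hrd : r ≤ d) (hm : m ≤ d ∨ 2 * m + 3 ≤ 3 * d)
    (hpos : (0 : ℝ) < (m : ℝ) / 3 - ((d : ℝ) - r) / 2) :
    3 ≤ (r : ℝ) / ((m : ℝ) / 3 - ((d : ℝ) - r) / 2) ∨
      (2 ≤ r ∧ 2 + 2 / ((r : ℝ) - 1) ≤ (r : ℝ) / ((m : ℝ) / 3 - ((d : ℝ) - r) / 2)) := by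
  have hrd' : (r : ℝ) ≤ d := by exact_mod_cast hrd
  rcases hm with hm | hm
  · left
    have hm' : (m : ℝ) ≤ d := by exact_mod_cast hm
    rw [le_div_iff₀ hpos]
    linarith
  · right
    have hm' : 2 * (m : ℝ) + 3 ≤ 3 * d := by exact_mod_cast hm
    have h1 : (m : ℝ) / 3 - ((d : ℝ) - r) / 2 ≤ ((r : ℝ) - 1) / 2 := by linarith
    have h2 : (0 : ℝ) < (r : ℝ) - 1 := by linarith
    have h3 : 2 ≤ r := by
      have : (1 : ℝ) < r := by linarith
      exact_mod_cast this
    refine ⟨h3, ?_⟩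
    rw [le_div_iff₀ hpos]
    have h4 : (2 + 2 / ((r : ℝ) - 1)) * (((r : ℝ) - 1) / 2) = r := by
      field_simp
      ring
    have h5 : 0 ≤ 2 + 2 / ((r : ℝ) - 1) := by positivity
    calc (2 + 2 / ((r : ℝ) - 1)) * ((m : ℝ) / 3 - ((d : ℝ) - r) / 2) ≤
        (2 + 2 / ((r : ℝ) - 1)) * (((r : ℝ) - 1) / 2) := mul_le_mul_of_nonneg_left h1 h5
      _ = r := h4

/-- **Sharp lower bound.** A Lie group of rank `r ≥ 3` has Lie exponent at least
`2 + 2 / (r - 1)`. -/
theorem le_lieExponent (A : RealLieGroup) (hr : 3 ≤ rank A.E A.G) :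
    ((2 + 2 / ((rank A.E A.G : ℝ) - 1) : ℝ) : EReal) ≤ A.lieExponent := by
  apply le_sInf
  rintro w ⟨S, T, U, m₁, m₂, m₃, hS, hT, hU, h, hpos, rfl⟩
  have h1 := dims A hS hT hU h
  have hr' : (3 : ℝ) ≤ rank A.E A.G := by exact_mod_cast hr
  have h2 : 2 + 2 / ((rank A.E A.G : ℝ) - 1) ≤ (rank A.E A.G : ℝ) /
      (((m₁ : ℝ) + m₂ + m₃) / 3 - ((finrank ℝ A.E : ℝ) - rank A.E A.G) / 2) := by
    have h3 := value_ge (m := m₁ + m₂ + m₃) (rank_le A) h1 (by push_cast; exact hpos)
    push_cast at h3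
    rcases h3 with h3 | h3
    · have h4 : 2 / ((rank A.E A.G : ℝ) - 1) ≤ 1 := by
        rw [div_le_one (by linarith)]; linarith
      linarith
    · exact h3.2
  exact EReal.coe_le_coe_iff.2 h2

/-- A Lie group of rank at most three has Lie exponent at least `3`. -/
theorem three_le_lieExponent (A : RealLieGroup) (hr : rank A.E A.G ≤ 3) :
    (3 : EReal) ≤ A.lieExponent := by
  apply le_sInf
  rintro w ⟨S, T, U, m₁, m₂, m₃, hS, hT, hU, h, hpos, rfl⟩
  have h1 := dims A hS hT hU h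
  have hr' : (rank A.E A.G : ℝ) ≤ 3 := by exact_mod_cast hr
  have h2 : (3 : ℝ) ≤ (rank A.E A.G : ℝ) /
      (((m₁ : ℝ) + m₂ + m₃) / 3 - ((finrank ℝ A.E : ℝ) - rank A.E A.G) / 2) := by
    have h3 := value_ge (m := m₁ + m₂ + m₃) (rank_le A) h1 (by push_cast; exact hpos)
    push_cast at h3
    rcases h3 with h3 | h3
    · exact h3
    · have h5 : (2 : ℝ) ≤ rank A.E A.G := by exact_mod_cast h3.1
      have h4 : 1 ≤ 2 / ((rank A.E A.G : ℝ) - 1) := by
        rw [le_div_iff₀ (by linarith)]; linarith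
      linarith [h3.2]
  have h3 : ((3 : ℝ) : EReal) ≤ (((rank A.E A.G : ℝ) /
      (((m₁ : ℝ) + m₂ + m₃) / 3 - ((finrank ℝ A.E : ℝ) - rank A.E A.G) / 2) : ℝ) : EReal) :=
    EReal.coe_le_coe_iff.2 h2
  exact h3

/-- The Lie exponent is never two. -/
theorem two_lt_lieExponent (A : RealLieGroup) : (2 : EReal) < A.lieExponent := by
  rcases Nat.lt_or_ge (rank A.E A.G) 3 with hr | hr
  · refine lt_of_lt_of_le ?_ (three_le_lieExponent A hr.le)
    have : ((2 : ℝ) : EReal) < ((3 : ℝ) : EReal) := EReal.coe_lt_coe_iff.2 (by norm_num)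
    exact this
  · refine lt_of_lt_of_le ?_ (le_lieExponent A hr)
    have hr' : (3 : ℝ) ≤ rank A.E A.G := by exact_mod_cast hr
    have h1 : 0 < 2 / ((rank A.E A.G : ℝ) - 1) := div_pos (by norm_num) (by linarith)
    have : ((2 : ℝ) : EReal) < ((2 + 2 / ((rank A.E A.G : ℝ) - 1) : ℝ) : EReal) :=
      EReal.coe_lt_coe_iff.2 (by linarith)
    exact this

/-- The Lie exponent of the Heisenberg group of dimension `2 n + 1` is exactly `2 + 1 / n`. -/
theorem lieExponent_heis (n : ℕ) (hn : 1 ≤ n) :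
    (Heis.lie n).lieExponent = ((2 + 1 / (n : ℝ) : ℝ) : EReal) := by
  apply le_antisymm (Heis.lieExponent_le n hn)
  have hr : rank (Heis.lie n).E (Heis.lie n).G = 2 * n + 1 := Heis.rank_eq n
  have h1 := le_lieExponent (Heis.lie n) (by rw [hr]; omega)
  rw [hr] at h1
  have hn0 : (0 : ℝ) < n := by exact_mod_cast hn
  have h2 : (2 + 2 / (((2 * n + 1 : ℕ) : ℝ) - 1) : ℝ) = 2 + 1 / (n : ℝ) := by
    push_cast
    rw [add_sub_cancel_right]
    congr 1
    field_simp
  rwa [h2] at h1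

end Pool.Agent.Y576.LE
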